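import Pool.Agent.Lib.MHB.Final

/-!
# The two statements for one set of shifts
-/

set_option autoImplicit false

open Finset Filter

namespace Pool.Agent.Lib.MHB

lemma Admissible.mono {S T : Finset ℕ} (h : Admissible T) (hST : S ⊆ T) : Admissible S :=
  fun p hp => (Finset.card_le_card (Finset.image_subset_image hST)).trans_lt (h p hp)

lemma sums_mono {r : ℕ} {L L' : Finset ℕ} (h : Fin r → ℕ) (hL : L' ⊆ L) : sums L' h ⊆ sums L h :=
  Finset.union_subset_union hL (Finset.image_subset_image (Finset.product_subset_product hL (Finset.Subset.refl _)))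

theorem both (m r : ℕ) : ∃ k K : ℕ, ∀ (A : ℕ) (ε : ℝ), 0 < ε → ∃ x₀ : ℕ, ∀ x : ℕ, x₀ ≤ x →
    ∀ L : Finset ℕ, L.card = k → (∀ l ∈ L, l ≤ x) → ∀ u H : Fin r → ℕ,
    (∀ j, (x : ℝ) ^ (1 / 6 + ε) ≤ H j ∧ u j + H j ≤ x) →
    ∃ E ⊆ box u H, (E.card : ℝ) ≤ (box u H).card / Real.log x ^ A ∧ ∀ h ∈ box u H, h ∉ E →
      (Admissible (sums L h) →
        (x : ℝ) / Real.log x ^ K ≤ (((Icc 1 x).filter (fun n => ∃ l ∈ L, (n + l).Prime ∧
          (∀ j, (n + l + h j).Prime) ∧ m ≤ (L.filter (fun l' => l < l' ∧ (n + l').Prime)).card)).card : ℝ)) ∧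
      (Admissible (L ∪ univ.image h) →
        (x : ℝ) / Real.log x ^ K ≤ (((Icc 1 x).filter (fun n => (∀ j, (n + h j).Prime) ∧
          m ≤ (L.filter (fun l => (n + l).Prime)).card)).card : ℝ)) := by
  classical
  obtain ⟨k1, K1, hg⟩ := gen m r
  obtain ⟨k2, K2, ho⟩ := off m r
  refine ⟨max k1 k2, max K1 K2, fun A ε hε => ?_⟩
  obtain ⟨x1, h1⟩ := hg (A + 1) ε hε
  obtain ⟨x2, h2⟩ := ho (A + 1) ε hε
  obtain ⟨x3, h3⟩ := eventually_atTop.1 (tendsto_log.eventually (eventually_ge_atTop 2))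
  refine ⟨max x1 (max x2 x3), fun x hx L hL hLx u H hH => ?_⟩
  have hlog : 2 ≤ Real.log x := h3 x (le_trans (le_trans (le_max_right _ _) (le_max_right _ _)) hx)
  have hl0 : 0 < Real.log x := by linarith
  obtain ⟨L1, hL1, hL1c⟩ := Finset.exists_subset_card_eq (show k1 ≤ L.card by rw [hL]; exact le_max_left _ _)
  obtain ⟨L2, hL2, hL2c⟩ := Finset.exists_subset_card_eq (show k2 ≤ L.card by rw [hL]; exact le_max_right _ _)
  obtain ⟨E1, hE1, hE1c, hE1s⟩ := h1 x (le_trans (le_max_left _ _) hx) L1 hL1c (fun l hl => hLx l (hL1 hl)) u H hH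
  obtain ⟨E2, hE2, hE2c, hE2s⟩ := h2 x (le_trans (le_trans (le_max_left _ _) (le_max_right _ _)) hx) L2 hL2c
    (fun l hl => hLx l (hL2 hl)) u H hH
  have hpow : ∀ K, K ≤ max K1 K2 → (x : ℝ) / Real.log x ^ max K1 K2 ≤ (x : ℝ) / Real.log x ^ K := by
    intro K hK
    exact div_le_div_of_nonneg_left (Nat.cast_nonneg _) (by positivity) (pow_le_pow_right₀ (by linarith) hK)
  have hIcc : Icc 1 (2 * (x / 4)) ⊆ Icc 1 x := Finset.Icc_subset_Icc_right (by omega)
  refine ⟨E1 ∪ E2, Finset.union_subset hE1 hE2, ?_, fun h hh hE => ⟨fun hadm => ?_, fun hadm => ?_⟩⟩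
  · have h1 : ((E1 ∪ E2).card : ℝ) ≤ E1.card + E2.card := by exact_mod_cast Finset.card_union_le _ _
    refine h1.trans ((add_le_add hE1c hE2c).trans ?_)
    rw [← two_mul, pow_succ]
    calc 2 * (((box u H).card : ℝ) / (Real.log x ^ A * Real.log x))
        ≤ Real.log x * (((box u H).card : ℝ) / (Real.log x ^ A * Real.log x)) :=
          mul_le_mul_of_nonneg_right hlog (by positivity)
      _ = _ := by field_simp
  · rw [Finset.mem_union, not_or] at hE
    refine (hpow K1 (le_max_left _ _)).trans ((hE1s h hh hE.1 (hadm.mono (sums_mono h hL1))).trans ?_)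
    refine Nat.cast_le.2 (Finset.card_le_card fun n hn => ?_)
    obtain ⟨hn1, l, hl, hp, hps, hm⟩ := Finset.mem_filter.1 hn
    exact Finset.mem_filter.2 ⟨hIcc hn1, l, hL1 hl, hp, hps, hm.trans (Finset.card_le_card
      (Finset.filter_subset_filter _ hL1))⟩
  · rw [Finset.mem_union, not_or] at hE
    refine (hpow K2 (le_max_right _ _)).trans ((hE2s h hh hE.2 (hadm.mono
      (Finset.union_subset_union hL2 (Finset.Subset.refl _)))).trans ?_)
    refine Nat.cast_le.2 (Finset.card_le_card fun n hn => ?_)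
    obtain ⟨hn1, hps, hm⟩ := Finset.mem_filter.1 hn
    exact Finset.mem_filter.2 ⟨hIcc hn1, hps, hm.trans (Finset.card_le_card (Finset.filter_subset_filter _ hL2))⟩

end Pool.Agent.Lib.MHB
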