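import Pool.Agent.Lib.VN.Final
import Pool.Agent.Lib.VM.WinSup6
import Pool.Agent.Lib.VK.SepSieve

/-!
# Independence of every sequence from the primes at almost all shifts from a box

The shifts `t` run over an arbitrary box `∏ (u j, u j + H j]` in `[0, x]^r` with `H j ≥ x^κ`, `κ > 1/6`.
-/

set_option autoImplicit false

open Finset Filter

namespace Pool.Agent.Lib.MHB

open Pool.Agent.HLB Pool.Agent.HLT Pool.Agent.HLU Pool.Agent.VK Pool.Agent.VN

/-- The input on short windows. -/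
theorem wne_sixth : WNE (1 / 6) := by
  intro κ hκ A0 B
  obtain ⟨A, hA, h⟩ := VM.win_sup6 A0 B (κ - 1 / 6) (by linarith)
  refine ⟨A, hA, ?_⟩
  filter_upwards [h] with x hx H h1 h2 k0
  exact hx H k0 (by rw [add_sub_cancel]; exact h1) h2

lemma energy_one (T : Finset ℕ) : energy 1 T ≤ T.card := by
  unfold energy
  refine Finset.card_le_card_of_injOn (fun u => u.1 0) (fun u hu => ?_) (fun u hu v hv huv => ?_)
  · have h := (Finset.mem_filter.mp (Finset.mem_coe.mp hu)).1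
    exact Fintype.mem_piFinset.mp (Finset.mem_product.mp h).1 0
  · have h1 := (Finset.mem_filter.mp (Finset.mem_coe.mp hu)).2
    have h2 := (Finset.mem_filter.mp (Finset.mem_coe.mp hv)).2
    simp only [Fin.sum_univ_one] at h1 h2
    have huv' : u.1 0 = v.1 0 := huv
    refine Prod.ext (funext fun i => ?_) (funext fun i => ?_)
    · rw [Subsingleton.elim i 0]
      exact huv'
    · rw [Subsingleton.elim i 0, ← h1, ← h2]
      exact huv'

lemma tr_Ioc (v H : ℕ) : tr (Ioc 0 H) v = Ioc v (v + H) := by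
  ext t
  rw [mem_tr, Finset.mem_Ioc]
  constructor
  · rintro ⟨s, hs, rfl⟩
    rw [Finset.mem_Ioc] at hs
    omega
  · intro h
    exact ⟨t - v, by rw [Finset.mem_Ioc]; omega, by omega⟩

/-- Intervals have a sparse spectrum. -/
lemma interval_spb : ∃ F : ℕ → ℕ, ∀ b₀ : ℕ, ∃ H₀ : ℕ, ∀ H : ℕ, H₀ ≤ H → ∀ v : ℕ,
    SpB F b₀ H (Ioc v (v + H)) := by
  refine ⟨fun b => 2 * 1 * b + 0 + 1, fun b₀ => ?_⟩
  obtain ⟨H₀, hH₀⟩ := eventually_atTop.mp (sps_of_energy 1 0 le_rfl)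
  refine ⟨max H₀ 3, fun H hH v => ?_⟩
  have hH3 : 3 ≤ H := le_trans (le_max_right _ _) hH
  have hT : (Ioc 0 H).Nonempty := ⟨1, by rw [Finset.mem_Ioc]; omega⟩
  have hTr : Ioc 0 H ⊆ range (H + 1) := by
    intro t ht
    rw [Finset.mem_Ioc] at ht
    rw [Finset.mem_range]
    omega
  have hE : energy 1 (Ioc 0 H) ≤ (Ioc 0 H).card := energy_one _
  have h1 := (hH₀ H (le_trans (le_max_left _ _) hH) H (Ioc 0 H) (by omega) hT hTr (by
    rw [pow_zero, mul_one, Nat.card_Ioc, Nat.sub_zero]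
    rw [Nat.card_Ioc, Nat.sub_zero] at hE
    calc (H : ℝ) * energy 1 (Ioc 0 H) ≤ H * H := mul_le_mul_of_nonneg_left (by exact_mod_cast hE) (Nat.cast_nonneg _)
      _ = (H : ℝ) ^ (2 * 1) := by ring) b₀).2
  rw [← tr_Ioc]
  intro b hb Θ hΘ h2
  refine h1 b hb Θ hΘ fun θ hθ => ?_
  have h3 := h2 θ hθ
  rwa [tr_card, norm_WW_tr] at h3

/-- The box. -/
def box {r : ℕ} (u H : Fin r → ℕ) : Finset (Fin r → ℕ) := Fintype.piFinset (fun j => Ioc (u j) (u j + H j))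

lemma card_box {r : ℕ} (u H : Fin r → ℕ) : (box u H).card = ∏ j, H j := by
  unfold box
  rw [Fintype.card_piFinset]
  exact Finset.prod_congr rfl fun j _ => by rw [Nat.card_Ioc]; omega

theorem box_univ (r K A : ℕ) (κ : ℝ) (hκ : 1 / 6 < κ) : ∃ B : ℕ, ∀ᶠ x : ℕ in atTop, ∀ u H : Fin r → ℕ,
    (∀ j, (x : ℝ) ^ κ ≤ H j ∧ u j + H j ≤ x) → ∀ w : ℕ → ℝ, (∀ n ∈ Icc 1 x, |w n| ≤ Real.log x ^ K) →
    ∃ E ⊆ box u H, (E.card : ℝ) ≤ (box u H).card / Real.log x ^ A ∧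
      ∀ t ∈ box u H, t ∉ E → ∀ y : ℕ, y ≤ x →
        |∑ n ∈ Icc 1 y, w n * (∏ i, G0 (n + t i) - ∏ i, G1 (zA B x) (n + t i))| ≤ x / Real.log x ^ A := by
  obtain ⟨F, hF⟩ := interval_spb
  obtain ⟨b0, B, h⟩ := fin_a (1 / 6) κ le_rfl wne_sixth hκ r K A F
  obtain ⟨H₀, hH₀⟩ := hF b0
  refine ⟨B, ?_⟩
  have hκ0 : 0 < κ := by linarith
  have hlarge : ∀ᶠ x : ℕ in atTop, (H₀ : ℝ) ≤ (x : ℝ) ^ κ :=
    ((tendsto_rpow_atTop hκ0).comp tendsto_natCast_atTop_atTop).eventually (eventually_ge_atTop (H₀ : ℝ))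
  filter_upwards [h, hlarge] with x h hx u H hH w hw
  have hUB := h H (fun i => ⟨(hH i).1, by have := (hH i).2; omega⟩) (fun i => Ioc (u i) (u i + H i))
    (fun i t ht => by
      rw [Finset.mem_Ioc] at ht
      have := (hH i).2
      rw [Finset.mem_range]
      omega) (fun i => hH₀ (H i) (by exact_mod_cast hx.trans (hH i).1) (u i))
  obtain ⟨E, hE1, hE2, hE3⟩ := hUB (fun n => (w n : ℂ)) (fun n hn => by
    rw [Complex.norm_real, Real.norm_eq_abs]
    exact hw n hn) 0 (Nat.zero_le _)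
  refine ⟨E, hE1, ?_, fun t ht htE y hy => ?_⟩
  · refine hE2.trans (le_of_eq ?_)
    rw [card_box]
    push_cast
    congr 1
    exact Finset.prod_congr rfl fun j _ => by rw [Nat.card_Ioc]; congr 1; omega
  · have h1 := (hE3 t ht htE).1 y hy
    rw [← Real.norm_eq_abs, ← Complex.norm_real]
    refine le_trans (le_of_eq ?_) h1
    congr 1
    push_cast
    rfl

end Pool.Agent.Lib.MHB
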