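import Pool.Agent.Lib.MP.Defs

/-!
# The residue class modulo a primorial
-/

set_option autoImplicit false

open Finset

namespace Pool.Agent.Lib.MHB

/-- If no prime is covered by the residue classes of the `f i`, then all `v + f i` are coprime to a given primorial
for some `v`. -/
theorem exists_class {ι : Type} [Fintype ι] (D : ℕ) (f : ι → ℕ)
    (hadm : ∀ p : ℕ, p.Prime → (univ.image (fun i => (f i : ZMod p))).card < p) :
    ∃ v : ℕ, ∀ i, Nat.Coprime (v + f i) (primorial D) := by
  classical
  have h1 : ∀ p : ℕ, ∃ c : ℕ, p.Prime → ∀ i, ¬ p ∣ c + f i := by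
    intro p
    by_cases hp : p.Prime
    · haveI : Fact p.Prime := ⟨hp⟩
      have h2 : (univ.image (fun i => -(f i : ZMod p))).card < (univ : Finset (ZMod p)).card := by
        rw [Finset.card_univ, ZMod.card]
        refine lt_of_le_of_lt ?_ (hadm p hp)
        have h3 : univ.image (fun i => -(f i : ZMod p)) =
            (univ.image (fun i => (f i : ZMod p))).image (fun t => -t) := by
          rw [Finset.image_image]
          rfl
        rw [h3]
        exact Finset.card_image_le
      obtain ⟨c, _, hc⟩ := Finset.exists_mem_notMem_of_card_lt_card h2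
      refine ⟨c.val, fun _ i hd => hc ?_⟩
      rw [Finset.mem_image]
      refine ⟨i, Finset.mem_univ _, ?_⟩
      have h4 : ((c.val + f i : ℕ) : ZMod p) = 0 := (ZMod.natCast_eq_zero_iff _ _).2 hd
      push_cast at h4
      rw [ZMod.natCast_val, ZMod.cast_id', id] at h4
      exact (eq_neg_of_add_eq_zero_left h4).symm
    · exact ⟨0, fun h => absurd h hp⟩
  choose c hc using h1
  obtain ⟨v, hv⟩ := Nat.chineseRemainderOfFinset c (fun p : ℕ => p) (Nat.primesLE D)
    (fun p hp => ((Nat.mem_primesLE.1 hp).2).ne_zero)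
    (fun p hp q hq hpq => (Nat.coprime_primes (Nat.mem_primesLE.1 (Finset.mem_coe.1 hp)).2
      (Nat.mem_primesLE.1 (Finset.mem_coe.1 hq)).2).2 hpq)
  refine ⟨v, fun i => ?_⟩
  rw [Nat.coprime_iff_gcd_eq_one]
  by_contra hg
  obtain ⟨p, hp, hpd⟩ := Nat.exists_prime_and_dvd hg
  have h5 : p ∣ v + f i := hpd.trans (Nat.gcd_dvd_left _ _)
  have h6 : p ∣ primorial D := hpd.trans (Nat.gcd_dvd_right _ _)
  have h7 : p ≤ D := hp.dvd_primorial_iff.1 h6
  have h8 := hv p (Nat.mem_primesLE.2 ⟨h7, hp⟩)
  apply hc p hp i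
  exact ((Nat.ModEq.add_right (f i) h8).dvd_iff (dvd_refl p)).1 h5

end Pool.Agent.Lib.MHB
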