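import Pool.Agent.Lib.MSB.Main
import Pool.Agent.Lib.MHB.Class

/-!
# Many primes in a block of shifts, all other shifts rough

`L : Fin q → ℕ` is the block, `b : Fin t → ℕ` are further shifts, `t ≤ (2^a - 1) q`. There are many `n ∈ (N, 2N]` such
that at least `m` of the `n + L i` are prime and all `n + L i`, `n + b j` are free of primes `≤ N^δ`.
-/

set_option autoImplicit false

open Finset
open scoped Classical

namespace Pool.Agent.Lib.MHB

open Pool.Agent.Lib.MT Pool.Agent.Lib.MP Pool.Agent.HLB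

/-- The shifts `f`, followed by shifts which are larger and in the same residue class as `f 0` modulo `M`. -/
def fill {k : ℕ} (M : ℕ) (f : Fin k → ℕ) (hk : 0 < k) (l : ℕ) : Fin (k + l) → ℕ :=
  Fin.append f (fun e : Fin l => f ⟨0, hk⟩ + M * ((e : ℕ) + 1))

lemma fill_left {k : ℕ} (M : ℕ) (f : Fin k → ℕ) (hk : 0 < k) (l : ℕ) (i : Fin k) :
    fill M f hk l (Fin.castAdd l i) = f i := Fin.append_left _ _ i

lemma fill_right {k : ℕ} (M : ℕ) (f : Fin k → ℕ) (hk : 0 < k) (l : ℕ) (e : Fin l) :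
    fill M f hk l (Fin.natAdd k e) = f ⟨0, hk⟩ + M * ((e : ℕ) + 1) := Fin.append_right _ _ e

lemma fill_inj {k : ℕ} {M X : ℕ} {f : Fin k → ℕ} {hk : 0 < k} {l : ℕ} (hf : Function.Injective f)
    (hX : ∀ i, f i ≤ X) (hM : X < M) : Function.Injective (fill M f hk l) := by
  intro i
  refine Fin.addCases (fun i => ?_) (fun e => ?_) i
  · intro j
    refine Fin.addCases (fun j => ?_) (fun e' => ?_) j
    · intro h
      rw [fill_left, fill_left] at h
      rw [hf h]
    · intro h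
      rw [fill_left, fill_right] at h
      have h1 := hX i
      have h2 : M ≤ M * ((e' : ℕ) + 1) := Nat.le_mul_of_pos_right _ (Nat.succ_pos _)
      omega
  · intro j
    refine Fin.addCases (fun j => ?_) (fun e' => ?_) j
    · intro h
      rw [fill_left, fill_right] at h
      have h1 := hX j
      have h2 : M ≤ M * ((e : ℕ) + 1) := Nat.le_mul_of_pos_right _ (Nat.succ_pos _)
      omega
    · intro h
      rw [fill_right, fill_right] at h
      have h1 : M * ((e : ℕ) + 1) = M * ((e' : ℕ) + 1) := by omega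
      have h2 : (e : ℕ) + 1 = (e' : ℕ) + 1 := Nat.eq_of_mul_eq_mul_left (by omega) h1
      rw [Fin.ext (by omega : (e : ℕ) = e')]

lemma fill_le {k : ℕ} {M X : ℕ} {f : Fin k → ℕ} {hk : 0 < k} {l : ℕ} (hX : ∀ i, f i ≤ X) (i : Fin (k + l)) :
    fill M f hk l i ≤ X + M * l := by
  refine Fin.addCases (fun i => ?_) (fun e => ?_) i
  · rw [fill_left]
    have := hX i
    omega
  · rw [fill_right]
    have h1 := hX ⟨0, hk⟩
    have h2 : M * ((e : ℕ) + 1) ≤ M * l := Nat.mul_le_mul_left _ e.2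
    omega

lemma fill_cop {k : ℕ} {W M v : ℕ} {f : Fin k → ℕ} {hk : 0 < k} {l : ℕ} (hf : ∀ i, Nat.Coprime (v + f i) W)
    (i : Fin (k + l)) : Nat.Coprime (v + fill (W * M) f hk l i) W := by
  refine Fin.addCases (fun i => ?_) (fun e => ?_) i
  · rw [fill_left]
    exact hf i
  · rw [fill_right]
    have h1 : v + (f ⟨0, hk⟩ + W * M * ((e : ℕ) + 1)) = (v + f ⟨0, hk⟩) + W * (M * ((e : ℕ) + 1)) := by ring
    rw [h1, Nat.coprime_add_mul_left_left]
    exact hf _

theorem count_gen (m a t₀ : ℕ) : ∃ (q K : ℕ) (δ : ℝ), t₀ ≤ q ∧ 1 ≤ q ∧ 0 < δ ∧ ∃ N₀ : ℕ, ∀ N : ℕ, N₀ ≤ N →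
    ∀ t : ℕ, t ≤ (2 ^ a - 1) * q → ∀ (L : Fin q → ℕ) (b : Fin t → ℕ),
    (∀ i, Fin.append L b i ≤ 20 * N) → Function.Injective (Fin.append L b) →
    (∀ p : ℕ, p.Prime → (univ.image (fun i => ((Fin.append L b i : ℕ) : ZMod p))).card < p) →
    (N : ℝ) / Real.log N ^ K ≤ (((Ioc N (2 * N)).filter (fun n =>
      (∀ i, ∀ p : ℕ, p.Prime → p ∣ n + Fin.append L b i → (N : ℝ) ^ δ < p) ∧
      m ≤ (univ.filter (fun i : Fin q => (n + L i).Prime)).card)).card : ℝ) := by
  obtain ⟨J, c, δ, hsJ, hmJ, hc, hδ, hδ1, H⟩ := MSB.maynard_subE (2 ^ a + t₀) m (by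
    have := Nat.one_le_two_pow (n := a)
    omega)
  obtain ⟨cG, hcG, hGG⟩ := GG_lower (2 ^ J)
  have haJ : a + t₀ ≤ J := by
    have := Nat.lt_two_pow_self (n := a)
    omega
  obtain ⟨q, hq⟩ : ∃ q : ℕ, q = 2 ^ (J - a) := ⟨_, rfl⟩
  have hqJ : 2 ^ a * q = 2 ^ J := by
    rw [hq, ← pow_add]
    congr 1
    omega
  have hq1 : 1 ≤ q := by rw [hq]; exact Nat.one_le_two_pow
  have htq : t₀ ≤ q := by
    rw [hq]
    exact le_trans (by omega : t₀ ≤ J - a) (Nat.lt_two_pow_self).le
  obtain ⟨D, hD⟩ : ∃ D : ℕ, D = 2 * 2 ^ J := ⟨_, rfl⟩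
  obtain ⟨W, hW⟩ : ∃ W : ℕ, W = primorial D := ⟨_, rfl⟩
  have hWpos : 0 < W := by rw [hW]; exact primorial_pos D
  have hWR : (0 : ℝ) < W := by exact_mod_cast hWpos
  obtain ⟨N₁, hN₁⟩ := H 1 D hD.ge
  obtain ⟨N₂, hN₂⟩ := PDatAux.zN_ge D
  have hlogT : Filter.Tendsto (fun N : ℕ => Real.log N) Filter.atTop Filter.atTop :=
    Real.tendsto_log_atTop.comp tendsto_natCast_atTop_atTop
  obtain ⟨N₃, hN₃⟩ := Filter.eventually_atTop.1 (hlogT.eventually_ge_atTop
    (max (max 1 (W / (c * cG))) ((20 + W * 21 * 2 ^ J : ℕ) : ℝ)))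
  refine ⟨q, 2 ^ J + 1, δ, htq, hq1, hδ, max (max N₁ N₂) (max N₃ 1), fun N hN t ht L b hle hinj hadm => ?_⟩
  have hNN1 : N₁ ≤ N := le_trans (le_trans (le_max_left _ _) (le_max_left _ _)) hN
  have hNN2 : N₂ ≤ N := le_trans (le_trans (le_max_right _ _) (le_max_left _ _)) hN
  have hNN3 : N₃ ≤ N := le_trans (le_trans (le_max_left _ _) (le_max_right _ _)) hN
  have hN1 : 1 ≤ N := le_trans (le_trans (le_max_right _ _) (le_max_right _ _)) hN
  have hNR : (1 : ℝ) ≤ N := by exact_mod_cast hN1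
  have h3 := hN₃ N hNN3
  have hL1 : 1 ≤ Real.log N := le_trans (le_max_left _ _) (le_trans (le_max_left _ _) h3)
  have hL2 : W / (c * cG) ≤ Real.log N := le_trans (le_max_right _ _) (le_trans (le_max_left _ _) h3)
  have hL3 : ((20 + W * 21 * 2 ^ J : ℕ) : ℝ) ≤ Real.log N := le_trans (le_max_right _ _) h3
  have hL0 : 0 < Real.log N := by linarith
  -- the full tuple
  have hk0 : 0 < q + t := by omega
  have hkl : (q + t) + (2 ^ J - (q + t)) = 2 ^ J := by
    have h4 : (2 ^ a - 1) * q + q = 2 ^ a * q := by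
      rw [Nat.sub_mul, one_mul]
      have : q ≤ 2 ^ a * q := Nat.le_mul_of_pos_left _ (by positivity)
      omega
    omega
  obtain ⟨l, hl⟩ : ∃ l : ℕ, l = 2 ^ J - (q + t) := ⟨_, rfl⟩
  rw [← hl] at hkl
  obtain ⟨v, hv⟩ := exists_class D (Fin.append L b) hadm
  rw [← hW] at hv
  set g : Fin ((q + t) + l) → ℕ := fill (W * (21 * N)) (Fin.append L b) hk0 l with hg
  have hginj : Function.Injective g := fill_inj (X := 20 * N) hinj hle (by
    calc 20 * N < 21 * N := by omega
      _ ≤ W * (21 * N) := Nat.le_mul_of_pos_left _ hWpos)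
  have hgle : ∀ i, (g i : ℝ) ≤ N * Real.log N ^ 1 := by
    intro i
    have h4 : g i ≤ 20 * N + W * (21 * N) * l := fill_le hle i
    have h5 : 20 * N + W * (21 * N) * l ≤ N * (20 + W * 21 * 2 ^ J) := by
      have h6 : l ≤ 2 ^ J := by omega
      calc 20 * N + W * (21 * N) * l ≤ 20 * N + W * (21 * N) * 2 ^ J :=
            Nat.add_le_add_left (Nat.mul_le_mul_left _ h6) _
        _ = N * (20 + W * 21 * 2 ^ J) := by ring
    calc (g i : ℝ) ≤ ((N * (20 + W * 21 * 2 ^ J) : ℕ) : ℝ) := by exact_mod_cast h4.trans h5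
      _ = N * ((20 + W * 21 * 2 ^ J : ℕ) : ℝ) := by push_cast; ring
      _ ≤ N * Real.log N := mul_le_mul_of_nonneg_left hL3 (by linarith)
      _ = N * Real.log N ^ 1 := by rw [pow_one]
  have hgcop : ∀ i, Nat.Coprime (v + g i) W := fun i => fill_cop hv i
  -- transport to `Fin (2 ^ J)`
  set e : Fin (2 ^ J) ≃ Fin ((q + t) + l) := finCongr hkl.symm with he
  set emb : Fin q → Fin (2 ^ J) := fun i => e.symm (Fin.castAdd l (Fin.castAdd t i)) with hemb
  have hembinj : Function.Injective emb := by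
    intro i j hij
    exact Fin.castAdd_injective q t (Fin.castAdd_injective _ l (e.symm.injective hij))
  have hge : ∀ i : Fin q, g (e (emb i)) = L i := by
    intro i
    rw [hemb]
    simp only [Equiv.apply_symm_apply]
    rw [hg, fill_left, Fin.append_left]
  have hI : 2 ^ J ≤ (2 ^ a + t₀) * (univ.image emb).card := by
    rw [Finset.card_image_of_injective _ hembinj, Finset.card_univ, Fintype.card_fin, ← hqJ]
    exact Nat.mul_le_mul_right _ (by omega)
  have key := hN₁ N hNN1 v (fun i => g (e i)) (hginj.comp e.injective) (fun i => hgle (e i))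
    (fun i => by rw [← hW]; exact hgcop (e i)) (univ.image emb) hI
  rw [← hW] at key
  -- the lower bound
  have hz : D ≤ zN N := hN₂ N hNN2
  have hG := hGG D (zN N) hD.ge hz (fun i => g (e i))
  rw [← hW] at hG
  have hDZ := DZ_pos (zN N)
  have hlow : (N : ℝ) / Real.log N ^ (2 ^ J + 1) ≤ c * ((N : ℝ) / W) *
      (GG (zN N) W (fun i => g (e i)) / (DZ (zN N) * Real.log N) ^ (2 ^ J)) := by
    have h4 : cG / Real.log N ^ (2 ^ J) ≤
        GG (zN N) W (fun i => g (e i)) / (DZ (zN N) * Real.log N) ^ (2 ^ J) := by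
      rw [mul_pow, div_le_div_iff₀ (by positivity) (by positivity)]
      calc cG * (DZ (zN N) ^ 2 ^ J * Real.log N ^ 2 ^ J) = (cG * DZ (zN N) ^ 2 ^ J) * Real.log N ^ 2 ^ J := by ring
        _ ≤ _ := mul_le_mul_of_nonneg_right hG (by positivity)
    refine le_trans ?_ (mul_le_mul_of_nonneg_left h4 (by positivity))
    have h5 : W ≤ Real.log N * (c * cG) := by
      rwa [div_le_iff₀ (by positivity)] at hL2
    rw [pow_succ]
    have h6 : c * ((N : ℝ) / W) * (cG / Real.log N ^ 2 ^ J) =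
        (N : ℝ) * (c * cG) / (W * Real.log N ^ 2 ^ J) := by
      field_simp
    rw [h6, div_le_div_iff₀ (by positivity) (by positivity)]
    calc (N : ℝ) * (W * Real.log N ^ 2 ^ J) = W * (N * Real.log N ^ 2 ^ J) := by ring
      _ ≤ (Real.log N * (c * cG)) * (N * Real.log N ^ 2 ^ J) := mul_le_mul_of_nonneg_right h5 (by positivity)
      _ = N * (c * cG) * (Real.log N ^ 2 ^ J * Real.log N) := by ring
  refine hlow.trans (key.trans ?_)
  have hsub : (Ioc N (2 * N)).filter (fun n => n ≡ v [MOD W] ∧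
        Rough ((N : ℝ) ^ δ) (fun i => g (e i)) n ∧
        m ≤ ((univ.image emb).filter (fun i => (n + g (e i)).Prime)).card) ⊆
      (Ioc N (2 * N)).filter (fun n =>
      (∀ i, ∀ p : ℕ, p.Prime → p ∣ n + Fin.append L b i → (N : ℝ) ^ δ < p) ∧
      m ≤ (univ.filter (fun i : Fin q => (n + L i).Prime)).card) := by
    intro n hn
    rw [Finset.mem_filter] at hn ⊢
    obtain ⟨hn1, -, hn2, hn3⟩ := hn
    refine ⟨hn1, fun i p hp hd => ?_, ?_⟩
    · refine hn2 (e.symm (Fin.castAdd l i)) p hp ?_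
      simp only [Equiv.apply_symm_apply]
      rw [hg, fill_left]
      exact hd
    · refine hn3.trans ?_
      have h4 : (univ.image emb).filter (fun i => (n + g (e i)).Prime) =
          (univ.filter (fun i : Fin q => (n + L i).Prime)).image emb := by
        ext i
        simp only [Finset.mem_filter, Finset.mem_image, Finset.mem_univ, true_and]
        constructor
        · rintro ⟨⟨j, rfl⟩, hj⟩
          rw [hge j] at hj
          exact ⟨j, hj, rfl⟩
        · rintro ⟨j, hj, rfl⟩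
          refine ⟨⟨j, rfl⟩, ?_⟩
          rw [hge j]
          exact hj
      rw [h4]
      exact Finset.card_image_le
  exact_mod_cast Finset.card_le_card hsub

end Pool.Agent.Lib.MHB
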