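import Pool.Agent.Lib.MHB.Box

/-!
# Coincidences among the shifts are rare
-/

set_option autoImplicit false

open Finset Filter

namespace Pool.Agent.Lib.MHB

/-- The number of points of the box whose `j`-th coordinate is determined by the others. -/
lemma card_det {r : ℕ} (u H : Fin r → ℕ) (j : Fin r) (g : (Fin r → ℕ) → ℕ)
    (hg : ∀ h v, g (Function.update h j v) = g h) :
    ((box u H).filter (fun h => h j = g h)).card * H j ≤ (box u H).card := by
  classical
  have h1 : ((box u H).filter (fun h => h j = g h)).card * H j =
      (((box u H).filter (fun h => h j = g h)) ×ˢ (Icc 1 (H j))).card := by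
    rw [Finset.card_product, Nat.card_Icc, Nat.add_sub_cancel]
  rw [h1]
  refine Finset.card_le_card_of_injOn (fun p => Function.update p.1 j (u j + p.2)) ?_ ?_
  · intro p hp
    rw [Finset.mem_coe, Finset.mem_product, Finset.mem_filter, Finset.mem_Icc] at hp
    obtain ⟨⟨hp1, -⟩, hp2, hp3⟩ := hp
    rw [Finset.mem_coe]
    unfold box at hp1 ⊢
    rw [Fintype.mem_piFinset] at hp1 ⊢
    intro i
    show Function.update p.1 j (u j + p.2) i ∈ Ioc (u i) (u i + H i)
    by_cases hij : i = j
    · subst hij
      rw [Function.update_self, Finset.mem_Ioc]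
      omega
    · rw [Function.update_of_ne hij]
      exact hp1 i
  · intro p hp p' hp' hpp
    rw [Finset.mem_coe, Finset.mem_product, Finset.mem_filter] at hp hp'
    have hpp' : Function.update p.1 j (u j + p.2) = Function.update p'.1 j (u j + p'.2) := hpp
    have e1 : p.2 = p'.2 := by
      have := congrFun hpp' j
      rw [Function.update_self, Function.update_self] at this
      omega
    have e2 : g p.1 = g p'.1 := by
      rw [← hg p.1 (u j + p.2), ← hg p'.1 (u j + p'.2), hpp']
    refine Prod.ext (funext fun i => ?_) e1
    by_cases hij : i = j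
    · subst hij
      rw [hp.1.2, hp'.1.2, e2]
    · have := congrFun hpp' i
      rwa [Function.update_of_ne hij, Function.update_of_ne hij] at this

/-- The values of the constants. -/
def val {q : ℕ} (f : Fin q → ℕ) (s : Option (Fin q)) : ℕ := s.elim 0 f

/-- A coincidence. -/
def coin {r q : ℕ} (f : Fin q → ℕ) (h : Fin r → ℕ) (z : (Fin r × Option (Fin r)) × (Option (Fin q) × Option (Fin q))) :
    Prop :=
  z.1.2 ≠ some z.1.1 ∧ h z.1.1 + val f z.2.1 = val f z.2.2 + z.1.2.elim 0 h

theorem few_bad (r q A : ℕ) (ε : ℝ) (hε : 0 < ε) : ∀ᶠ x : ℕ in atTop, ∀ u H : Fin r → ℕ,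
    (∀ j, (x : ℝ) ^ (1 / 6 + ε) ≤ H j ∧ u j + H j ≤ x) → ∀ f : Fin q → ℕ,
    ∃ E ⊆ box u H, (E.card : ℝ) ≤ (box u H).card / Real.log x ^ A ∧
      ∀ h ∈ box u H, h ∉ E → ∀ z, ¬ coin f h z := by
  classical
  set M : ℕ := (univ : Finset ((Fin r × Option (Fin r)) × (Option (Fin q) × Option (Fin q)))).card with hM
  have h3 : ∀ᶠ x : ℝ in atTop, Real.log x ^ A * (M + 1) ≤ x ^ (1 / 6 + ε) := by
    have h4 := (isLittleO_log_rpow_rpow_atTop (A : ℝ) (by linarith : 0 < 1 / 6 + ε)).bound
      (c := 1 / ((M : ℝ) + 1)) (by positivity)
    filter_upwards [h4, eventually_ge_atTop 1] with x h4 hx1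
    have hl := Real.log_nonneg hx1
    rw [Real.rpow_natCast, Real.norm_eq_abs, Real.norm_eq_abs, abs_of_nonneg (by positivity),
      abs_of_nonneg (by positivity)] at h4
    calc Real.log x ^ A * (M + 1) ≤ (1 / ((M : ℝ) + 1) * x ^ (1 / 6 + ε)) * (M + 1) :=
          mul_le_mul_of_nonneg_right h4 (by positivity)
      _ = x ^ (1 / 6 + ε) := by field_simp
  filter_upwards [tendsto_natCast_atTop_atTop.eventually h3, eventually_ge_atTop 3] with x h3 hx3 u H hH f
  have hx3' : (3 : ℝ) ≤ x := by exact_mod_cast hx3
  have hl : 0 < Real.log x := Real.log_pos (by linarith)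
  refine ⟨(box u H).filter (fun h => ∃ z, coin f h z), Finset.filter_subset _ _, ?_, fun h hh hE z hz => ?_⟩
  · have h1 : ((box u H).filter (fun h => ∃ z, coin f h z)) ⊆
        univ.biUnion (fun z => (box u H).filter (fun h => coin f h z)) := by
      intro h hh
      obtain ⟨hh1, z, hz⟩ := Finset.mem_filter.1 hh
      exact Finset.mem_biUnion.2 ⟨z, Finset.mem_univ _, Finset.mem_filter.2 ⟨hh1, hz⟩⟩
    have h2 : ∀ z, (((box u H).filter (fun h => coin f h z)).card : ℝ) ≤
        (box u H).card / (x : ℝ) ^ (1 / 6 + ε) := by
      rintro ⟨⟨j, o⟩, s, t⟩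
      by_cases ho : o = some j
      · have : (box u H).filter (fun h => coin f h ((j, o), (s, t))) = ∅ := by
          rw [Finset.filter_eq_empty_iff]
          intro h _ hc
          exact hc.1 ho
        rw [this, Finset.card_empty, Nat.cast_zero]
        positivity
      · have h4 := card_det u H j (fun h => val f t + o.elim 0 h - val f s) (by
          intro h v
          have h5 : o.elim 0 (Function.update h j v) = o.elim 0 h := by
            cases o with
            | none => rfl
            | some i =>
              have hij : i ≠ j := fun hc => ho (by rw [hc])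
              simp only [Option.elim_some]
              rw [Function.update_of_ne hij]
          simp only [h5])
        have h6 : (box u H).filter (fun h => coin f h ((j, o), (s, t))) ⊆
            (box u H).filter (fun h => h j = val f t + o.elim 0 h - val f s) := by
          intro h hh
          rw [Finset.mem_filter] at hh ⊢
          refine ⟨hh.1, ?_⟩
          have := hh.2.2
          simp only at this
          omega
        have hx0 : 0 < (x : ℝ) ^ (1 / 6 + ε) := by positivity
        rw [le_div_iff₀ hx0]
        calc (((box u H).filter (fun h => coin f h ((j, o), (s, t)))).card : ℝ) * (x : ℝ) ^ (1 / 6 + ε)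
            ≤ (((box u H).filter (fun h => h j = val f t + o.elim 0 h - val f s)).card : ℝ) * H j := by
              apply mul_le_mul _ (hH j).1 hx0.le (Nat.cast_nonneg _)
              exact_mod_cast Finset.card_le_card h6
          _ ≤ (box u H).card := by exact_mod_cast h4
    calc (((box u H).filter (fun h => ∃ z, coin f h z)).card : ℝ)
        ≤ ((univ.biUnion (fun z => (box u H).filter (fun h => coin f h z))).card : ℝ) := by
          exact_mod_cast Finset.card_le_card h1
      _ ≤ ((∑ z, ((box u H).filter (fun h => coin f h z)).card : ℕ) : ℝ) := by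
          exact_mod_cast Finset.card_biUnion_le
      _ = ∑ z, (((box u H).filter (fun h => coin f h z)).card : ℝ) := by push_cast; rfl
      _ ≤ ∑ _z : (Fin r × Option (Fin r)) × (Option (Fin q) × Option (Fin q)),
            (box u H).card / (x : ℝ) ^ (1 / 6 + ε) := Finset.sum_le_sum fun z _ => h2 z
      _ = M * ((box u H).card / (x : ℝ) ^ (1 / 6 + ε)) := by
          rw [Finset.sum_const, nsmul_eq_mul]
      _ ≤ (box u H).card / Real.log x ^ A := by
          rw [← mul_div_assoc, div_le_div_iff₀ (by positivity) (by positivity)]
          calc (M : ℝ) * (box u H).card * Real.log x ^ A = (box u H).card * (Real.log x ^ A * M) := by ring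
            _ ≤ (box u H).card * (x : ℝ) ^ (1 / 6 + ε) := by
                apply mul_le_mul_of_nonneg_left _ (Nat.cast_nonneg _)
                refine le_trans ?_ h3
                apply mul_le_mul_of_nonneg_left _ (by positivity)
                linarith
  · exact hE (Finset.mem_filter.2 ⟨hh, z, hz⟩)

end Pool.Agent.Lib.MHB
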