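import Pool.Agent.Lib.MHB.Box
import Pool.Agent.Lib.MP.PDat

/-!
# From rough integers to primes at almost all shifts
-/

set_option autoImplicit false

open Finset Filter

namespace Pool.Agent.Lib.MHB

open Pool.Agent.HLB Pool.Agent.HLT Pool.Agent.HLU

lemma G0_nonneg (n : ℕ) : 0 ≤ G0 n := by
  unfold G0
  split_ifs <;> norm_num

lemma G1_nonneg (z n : ℕ) : 0 ≤ G1 z n := by
  unfold G1
  exact mul_nonneg (nuz_nonneg z n) (div_nonneg zero_le_one (Real.log_natCast_nonneg n))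

/-- The model at an integer without small prime factors. -/
lemma G1_lower {z n : ℕ} {Λ : ℝ} (hn : 2 ≤ n) (hΛ : Real.log n ≤ Λ) (h : ∀ p : ℕ, p.Prime → p ∣ n → z < p) :
    1 / Λ ≤ G1 z n := by
  have hlog : 0 < Real.log n := Real.log_pos (by exact_mod_cast (by omega : 1 < n))
  have h1 : ic z n = 1 := by
    unfold ic
    rw [if_pos]
    intro p hp hd
    have h2 := Nat.mem_primesLE.1 hp
    have := h p h2.2 hd
    omega
  have h2 : 1 ≤ (DZ z)⁻¹ := (one_le_inv₀ (DZ_pos z)).2 (MP.PDatAux.DZ_le_one z)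
  unfold G1 nuz
  rw [h1, mul_one]
  calc 1 / Λ ≤ 1 / Real.log n := one_div_le_one_div_of_le hlog hΛ
    _ = 1 * (1 / Real.log n) := (one_mul _).symm
    _ ≤ (DZ z)⁻¹ * (1 / Real.log n) := mul_le_mul_of_nonneg_right h2 (by positivity)

lemma tendsto_log : Tendsto (fun x : ℕ => Real.log x) atTop atTop :=
  Real.tendsto_log_atTop.comp tendsto_natCast_atTop_atTop

/-- Eventual facts. -/
lemma ev_facts (B : ℕ) (δ ε : ℝ) (hδ : 0 < δ) (hε : 0 < ε) (M : ℝ) : ∀ᶠ x : ℕ in atTop,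
    M ≤ Real.log x ∧ 8 ≤ x ∧ (((2 * x : ℕ) : ℝ)) ^ (1 / 6 + ε / 2) ≤ (x : ℝ) ^ (1 / 6 + ε) ∧
      ((zA B (2 * x) : ℕ) : ℝ) ≤ ((x / 4 : ℕ) : ℝ) ^ δ := by
  have h1 := tendsto_log.eventually (eventually_ge_atTop M)
  have hx : Tendsto (fun x : ℕ => (x : ℝ)) atTop atTop := tendsto_natCast_atTop_atTop
  have h2 : ∀ᶠ x : ℕ in atTop, (2 : ℝ) ≤ (x : ℝ) ^ (ε / 2) :=
    ((tendsto_rpow_atTop (by linarith : 0 < ε / 2)).comp hx).eventually (eventually_ge_atTop 2)
  have h3 : ∀ᶠ x : ℝ in atTop, Real.log x ^ B * (2 ^ B * 8 ^ δ) ≤ x ^ δ := by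
    have h4 := (isLittleO_log_rpow_rpow_atTop (B : ℝ) hδ).bound (c := 1 / (2 ^ B * 8 ^ δ)) (by positivity)
    filter_upwards [h4, eventually_ge_atTop 1] with x h4 hx1
    have hl := Real.log_nonneg hx1
    rw [Real.rpow_natCast, Real.norm_eq_abs, Real.norm_eq_abs, abs_of_nonneg (by positivity),
      abs_of_nonneg (by positivity)] at h4
    calc Real.log x ^ B * (2 ^ B * 8 ^ δ) ≤ (1 / (2 ^ B * 8 ^ δ) * x ^ δ) * (2 ^ B * 8 ^ δ) :=
          mul_le_mul_of_nonneg_right h4 (by positivity)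
      _ = x ^ δ := by field_simp
  filter_upwards [h1, h2, hx.eventually h3, eventually_ge_atTop 8, tendsto_log.eventually (eventually_ge_atTop 1)]
    with x a1 a2 a3 a4 a5
  have hx8 : (8 : ℝ) ≤ x := by exact_mod_cast a4
  have hx0 : (0 : ℝ) < x := by linarith
  refine ⟨a1, a4, ?_, ?_⟩
  · push_cast
    have h5 : (2 : ℝ) * x ≤ (x : ℝ) ^ (ε / 2) * x := mul_le_mul_of_nonneg_right a2 hx0.le
    rcases le_or_gt ε 1 with hε1 | hε1
    · -- `(2x)^(1/6 + ε/2) ≤ 2 x^(1/6+ε/2) ≤ x^(1/6+ε)`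
      have h6 : (2 : ℝ) ^ (1 / 6 + ε / 2) ≤ 2 ^ (1 : ℝ) :=
        Real.rpow_le_rpow_of_exponent_le (by norm_num) (by linarith)
      rw [Real.rpow_one] at h6
      calc (2 * (x : ℝ)) ^ (1 / 6 + ε / 2) = 2 ^ (1 / 6 + ε / 2) * (x : ℝ) ^ (1 / 6 + ε / 2) :=
            Real.mul_rpow (by norm_num) hx0.le
        _ ≤ 2 * (x : ℝ) ^ (1 / 6 + ε / 2) := mul_le_mul_of_nonneg_right h6 (by positivity)
        _ ≤ (x : ℝ) ^ (ε / 2) * (x : ℝ) ^ (1 / 6 + ε / 2) := mul_le_mul_of_nonneg_right a2 (by positivity)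
        _ = (x : ℝ) ^ (1 / 6 + ε) := by rw [← Real.rpow_add hx0]; congr 1; ring
    · -- `2 ≤ x`, so `(2x)^(1/6+ε/2) ≤ x^(2 (1/6 + ε/2)) ≤ ...`; use `2 ≤ x^(1/3)`
      have h6 : (2 : ℝ) ≤ (x : ℝ) ^ (1 / 3 : ℝ) := by
        have h7 : ((8 : ℝ)) ^ (1 / 3 : ℝ) ≤ (x : ℝ) ^ (1 / 3 : ℝ) := Real.rpow_le_rpow (by norm_num) hx8 (by norm_num)
        have h8 : (8 : ℝ) ^ (1 / 3 : ℝ) = 2 := by
          rw [show (8 : ℝ) = 2 ^ (3 : ℝ) by norm_num, ← Real.rpow_mul (by norm_num)]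
          norm_num
        rwa [h8] at h7
      calc (2 * (x : ℝ)) ^ (1 / 6 + ε / 2) ≤ ((x : ℝ) ^ (1 / 3 : ℝ) * x) ^ (1 / 6 + ε / 2) := by
            apply Real.rpow_le_rpow (by positivity) (mul_le_mul_of_nonneg_right h6 hx0.le) (by linarith)
        _ = (x : ℝ) ^ ((4 / 3 : ℝ) * (1 / 6 + ε / 2)) := by
            rw [show (x : ℝ) ^ (1 / 3 : ℝ) * x = (x : ℝ) ^ (4 / 3 : ℝ) by
              nth_rewrite 2 [← Real.rpow_one (x : ℝ)]
              rw [← Real.rpow_add hx0]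
              norm_num]
            rw [← Real.rpow_mul hx0.le]
        _ ≤ (x : ℝ) ^ (1 / 6 + ε) := Real.rpow_le_rpow_of_exponent_le (by linarith) (by linarith)
  · have h5 : ((zA B (2 * x) : ℕ) : ℝ) ≤ Real.log ((2 * x : ℕ) : ℝ) ^ B := by
      unfold zA
      exact Nat.floor_le (pow_nonneg (Real.log_natCast_nonneg _) _)
    have h6 : Real.log ((2 * x : ℕ) : ℝ) ≤ 2 * Real.log x := by
      have h7 : Real.log ((x : ℝ) ^ 2) = 2 * Real.log x := by
        rw [Real.log_pow]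
        norm_num
      rw [← h7]
      apply Real.log_le_log (by push_cast; linarith)
      push_cast
      nlinarith
    have h8 : (x : ℝ) / 8 ≤ ((x / 4 : ℕ) : ℝ) := by
      have h9 : x ≤ 8 * (x / 4) := by omega
      have h10 : (x : ℝ) ≤ 8 * ((x / 4 : ℕ) : ℝ) := by exact_mod_cast h9
      linarith
    calc ((zA B (2 * x) : ℕ) : ℝ) ≤ Real.log ((2 * x : ℕ) : ℝ) ^ B := h5
      _ ≤ (2 * Real.log x) ^ B := pow_le_pow_left₀ (Real.log_natCast_nonneg _) h6 B
      _ = (Real.log x ^ B * (2 ^ B * 8 ^ δ)) / 8 ^ δ := by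
          rw [mul_pow]
          field_simp
      _ ≤ (x : ℝ) ^ δ / 8 ^ δ := div_le_div_of_nonneg_right a3 (by positivity)
      _ = ((x : ℝ) / 8) ^ δ := (Real.div_rpow hx0.le (by norm_num) δ).symm
      _ ≤ ((x / 4 : ℕ) : ℝ) ^ δ := Real.rpow_le_rpow (by positivity) h8 hδ.le

theorem transfer (r q K₀ A : ℕ) (δ ε : ℝ) (hδ : 0 < δ) (hε : 0 < ε) : ∀ᶠ x : ℕ in atTop,
    ∀ c : Fin q → ℕ, (∀ i, c i ≤ x) → ∀ u H : Fin r → ℕ, (∀ j, (x : ℝ) ^ (1 / 6 + ε) ≤ H j ∧ u j + H j ≤ x) →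
    ∀ w : Fin q → ℕ → ℝ, (∀ i n, 0 ≤ w i n ∧ w i n ≤ 1) →
    ∃ E ⊆ box u H, (E.card : ℝ) ≤ (box u H).card / Real.log x ^ A ∧ ∀ h ∈ box u H, h ∉ E →
      ∀ G ⊆ Ioc (x / 4) (2 * (x / 4)), (∀ n ∈ G, ∃ i, w i n = 1 ∧ ∀ j, ∀ p : ℕ, p.Prime → p ∣ n + (h j + c i) →
        ((x / 4 : ℕ) : ℝ) ^ δ < p) →
      ((x / 4 : ℕ) : ℝ) / Real.log ((x / 4 : ℕ) : ℝ) ^ K₀ ≤ G.card →
      x / Real.log x ^ (K₀ + r + 2) ≤ ∑ i, ∑ n ∈ Icc 1 (2 * (x / 4)), w i n * ∏ j, G0 (n + (h j + c i)) := by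
  obtain ⟨B, hB⟩ := box_univ r 0 (A + K₀ + r + 3) (1 / 6 + ε / 2) (by linarith)
  have h2x : Tendsto (fun x : ℕ => 2 * x) atTop atTop := tendsto_id.const_mul_atTop' (by norm_num)
  filter_upwards [h2x.eventually hB, ev_facts B δ ε hδ hε (16 * 2 ^ r + 2 * q + 2)] with x hB hf
  obtain ⟨f1, f2, f3, f4⟩ := hf
  intro c hc u H hH w hw
  obtain ⟨N, hN⟩ : ∃ N : ℕ, N = x / 4 := ⟨_, rfl⟩
  rw [← hN] at f4 ⊢
  have hx8 : (8 : ℝ) ≤ x := by exact_mod_cast f2
  have hx0 : (0 : ℝ) < x := by linarith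
  have hr2 : (1 : ℝ) ≤ 2 ^ r := one_le_pow₀ (by norm_num)
  have hq0 : (0 : ℝ) ≤ q := Nat.cast_nonneg q
  set ℓ := Real.log x with hℓ
  have hℓ16 : 16 * 2 ^ r ≤ ℓ := by linarith
  have hℓq : 2 * q + 2 ≤ ℓ := by nlinarith
  have hℓ1 : 1 ≤ ℓ := by linarith
  have hℓ0 : 0 < ℓ := by linarith
  have hl2 : ℓ ≤ Real.log ((2 * x : ℕ) : ℝ) := by
    apply Real.log_le_log hx0
    push_cast
    linarith
  have hl20 : 0 < Real.log ((2 * x : ℕ) : ℝ) := by linarith
  -- the exceptional sets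
  have hex : ∀ i, ∃ F ⊆ box (fun j => u j + c i) H,
      (F.card : ℝ) ≤ (box (fun j => u j + c i) H).card / Real.log ((2 * x : ℕ) : ℝ) ^ (A + K₀ + r + 3) ∧
      ∀ t ∈ box (fun j => u j + c i) H, t ∉ F → ∀ y : ℕ, y ≤ 2 * x →
        |∑ n ∈ Icc 1 y, w i n * (∏ j, G0 (n + t j) - ∏ j, G1 (zA B (2 * x)) (n + t j))| ≤
          ((2 * x : ℕ) : ℝ) / Real.log ((2 * x : ℕ) : ℝ) ^ (A + K₀ + r + 3) := by
    intro i
    refine hB (fun j => u j + c i) H (fun j => ⟨f3.trans (hH j).1, ?_⟩) (w i) (fun n _ => ?_)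
    · have h1 := (hH j).2
      have h2 := hc i
      omega
    · rw [pow_zero, abs_of_nonneg (hw i n).1]
      exact (hw i n).2
  choose F hF1 hF2 hF3 using hex
  have hmem : ∀ (i : Fin q) (h : Fin r → ℕ), h ∈ box u H → (fun j => h j + c i) ∈ box (fun j => u j + c i) H := by
    intro i h hh
    unfold box at hh ⊢
    rw [Fintype.mem_piFinset] at hh ⊢
    intro j
    have := Finset.mem_Ioc.1 (hh j)
    show h j + c i ∈ Ioc (u j + c i) (u j + c i + H j)
    rw [Finset.mem_Ioc]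
    omega
  classical
  refine ⟨univ.biUnion (fun i => (box u H).filter (fun h => (fun j => h j + c i) ∈ F i)), ?_, ?_, ?_⟩
  · intro h hh
    rw [Finset.mem_biUnion] at hh
    obtain ⟨i, _, hi⟩ := hh
    exact (Finset.mem_filter.1 hi).1
  · have h1 : ∀ i, (((box u H).filter (fun h => (fun j => h j + c i) ∈ F i)).card : ℝ) ≤
        (box u H).card / ℓ ^ (A + 1) := by
      intro i
      have h2 : ((box u H).filter (fun h => (fun j => h j + c i) ∈ F i)).card ≤ (F i).card := by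
        refine Finset.card_le_card_of_injOn (fun h => fun j => h j + c i) (fun h hh => ?_) ?_
        · exact (Finset.mem_filter.1 (Finset.mem_coe.1 hh)).2
        · intro h _ h' _ hhh
          funext j
          have := congrFun hhh j
          simp only at this
          omega
      have h3 : (box (fun j => u j + c i) H).card = (box u H).card := by rw [card_box, card_box]
      have h4 := hF2 i
      rw [h3] at h4
      refine le_trans (by exact_mod_cast h2) (h4.trans ?_)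
      apply div_le_div_of_nonneg_left (Nat.cast_nonneg _) (by positivity)
      calc ℓ ^ (A + 1) ≤ ℓ ^ (A + K₀ + r + 3) := pow_le_pow_right₀ hℓ1 (by omega)
        _ ≤ Real.log ((2 * x : ℕ) : ℝ) ^ (A + K₀ + r + 3) := pow_le_pow_left₀ hℓ0.le hl2 _
    calc ((univ.biUnion (fun i => (box u H).filter (fun h => (fun j => h j + c i) ∈ F i))).card : ℝ)
        ≤ ((∑ i, ((box u H).filter (fun h => (fun j => h j + c i) ∈ F i)).card : ℕ) : ℝ) := by
          exact_mod_cast Finset.card_biUnion_le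
      _ = ∑ i, (((box u H).filter (fun h => (fun j => h j + c i) ∈ F i)).card : ℝ) := by push_cast; rfl
      _ ≤ ∑ _i : Fin q, (box u H).card / ℓ ^ (A + 1) := Finset.sum_le_sum fun i _ => h1 i
      _ = q * ((box u H).card / ℓ ^ (A + 1)) := by
          rw [Finset.sum_const, Finset.card_univ, Fintype.card_fin, nsmul_eq_mul]
      _ ≤ ℓ * ((box u H).card / ℓ ^ (A + 1)) := mul_le_mul_of_nonneg_right (by linarith) (by positivity)
      _ = (box u H).card / ℓ ^ A := by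
          rw [pow_succ]
          field_simp
  · intro h hh hE G hG hGn hGc
    have hnF : ∀ i, (fun j => h j + c i) ∉ F i := by
      intro i hi
      apply hE
      rw [Finset.mem_biUnion]
      exact ⟨i, Finset.mem_univ _, Finset.mem_filter.2 ⟨hh, hi⟩⟩
    have hN2 : 2 * N ≤ 2 * x := by omega
    have hkey : ∀ i, ∑ n ∈ Icc 1 (2 * N), w i n * ∏ j, G1 (zA B (2 * x)) (n + (h j + c i)) -
        ((2 * x : ℕ) : ℝ) / Real.log ((2 * x : ℕ) : ℝ) ^ (A + K₀ + r + 3) ≤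
        ∑ n ∈ Icc 1 (2 * N), w i n * ∏ j, G0 (n + (h j + c i)) := by
      intro i
      have h1 := hF3 i _ (hmem i h hh) (hnF i) (2 * N) hN2
      simp only [mul_sub, Finset.sum_sub_distrib] at h1
      have h2 := (abs_le.1 h1).1
      linarith
    -- the model
    have hmodel : (G.card : ℝ) * (1 / (2 * ℓ)) ^ r ≤
        ∑ i, ∑ n ∈ Icc 1 (2 * N), w i n * ∏ j, G1 (zA B (2 * x)) (n + (h j + c i)) := by
      rw [Finset.sum_comm]
      have hterm : ∀ i n, 0 ≤ w i n * ∏ j, G1 (zA B (2 * x)) (n + (h j + c i)) := fun i n =>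
        mul_nonneg (hw i n).1 (Finset.prod_nonneg fun j _ => G1_nonneg _ _)
      have hGsub : G ⊆ Icc 1 (2 * N) := by
        intro n hn
        have := Finset.mem_Ioc.1 (hG hn)
        rw [Finset.mem_Icc]
        omega
      refine le_trans ?_ (Finset.sum_le_sum_of_subset_of_nonneg hGsub fun n _ _ =>
        Finset.sum_nonneg fun i _ => hterm i n)
      rw [← nsmul_eq_mul, ← Finset.sum_const]
      refine Finset.sum_le_sum fun n hn => ?_
      obtain ⟨i, hi, hrough⟩ := hGn n hn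
      refine le_trans ?_ (Finset.single_le_sum (fun i _ => hterm i n) (Finset.mem_univ i))
      rw [hi, one_mul]
      have hn1 := Finset.mem_Ioc.1 (hG hn)
      calc (1 / (2 * ℓ)) ^ r = ∏ _j : Fin r, (1 / (2 * ℓ)) := by
            rw [Finset.prod_const, Finset.card_univ, Fintype.card_fin]
        _ ≤ ∏ j, G1 (zA B (2 * x)) (n + (h j + c i)) := by
            refine Finset.prod_le_prod (fun j _ => by positivity) fun j _ => ?_
            refine G1_lower (by omega) ?_ (fun p hp hd => ?_)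
            · have h3 : n + (h j + c i) ≤ 3 * x := by
                unfold box at hh
                rw [Fintype.mem_piFinset] at hh
                have h4 := Finset.mem_Ioc.1 (hh j)
                have h5 := (hH j).2
                have h6 := hc i
                omega
              have h4 : 2 * ℓ = Real.log ((x : ℝ) ^ 2) := by rw [Real.log_pow, hℓ]; norm_num
              rw [h4]
              apply Real.log_le_log
              · exact_mod_cast (by omega : 0 < n + (h j + c i))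
              · calc ((n + (h j + c i) : ℕ) : ℝ) ≤ ((3 * x : ℕ) : ℝ) := by exact_mod_cast h3
                  _ = 3 * (x : ℝ) := by push_cast; ring
                  _ ≤ (x : ℝ) ^ 2 := by nlinarith
            · have h3 := hrough j p hp hd
              have h4 : ((zA B (2 * x) : ℕ) : ℝ) < p := lt_of_le_of_lt f4 h3
              exact_mod_cast h4
    -- arithmetic
    have hNge : (x : ℝ) / 8 ≤ (N : ℝ) := by
      have h9 : x ≤ 8 * N := by omega
      have h10 : (x : ℝ) ≤ 8 * (N : ℝ) := by exact_mod_cast h9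
      linarith
    have hN2' : 2 ≤ N := by omega
    have hlN0 : 0 < Real.log (N : ℝ) := Real.log_pos (by exact_mod_cast (by omega : 1 < N))
    have hlN : Real.log (N : ℝ) ≤ ℓ := Real.log_le_log (by linarith) (by exact_mod_cast (by omega : N ≤ x))
    have hGc' : (x : ℝ) / 8 / ℓ ^ K₀ ≤ G.card := by
      refine le_trans ?_ hGc
      calc (x : ℝ) / 8 / ℓ ^ K₀ ≤ (N : ℝ) / ℓ ^ K₀ := div_le_div_of_nonneg_right hNge (by positivity)
        _ ≤ (N : ℝ) / Real.log N ^ K₀ := by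
            apply div_le_div_of_nonneg_left (Nat.cast_nonneg _) (by positivity)
            exact pow_le_pow_left₀ hlN0.le hlN _
    have hsum : ∑ i, (∑ n ∈ Icc 1 (2 * N), w i n * ∏ j, G1 (zA B (2 * x)) (n + (h j + c i)) -
        ((2 * x : ℕ) : ℝ) / Real.log ((2 * x : ℕ) : ℝ) ^ (A + K₀ + r + 3)) ≤
        ∑ i, ∑ n ∈ Icc 1 (2 * N), w i n * ∏ j, G0 (n + (h j + c i)) := Finset.sum_le_sum fun i _ => hkey i
    rw [Finset.sum_sub_distrib, Finset.sum_const, Finset.card_univ, Fintype.card_fin, nsmul_eq_mul] at hsum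
    have herr : (q : ℝ) * (((2 * x : ℕ) : ℝ) / Real.log ((2 * x : ℕ) : ℝ) ^ (A + K₀ + r + 3)) ≤
        x / ℓ ^ (K₀ + r + 2) := by
      have h1 : ((2 * x : ℕ) : ℝ) / Real.log ((2 * x : ℕ) : ℝ) ^ (A + K₀ + r + 3) ≤
          2 * x / ℓ ^ (K₀ + r + 3) := by
        push_cast
        apply div_le_div_of_nonneg_left (by positivity) (by positivity)
        calc ℓ ^ (K₀ + r + 3) ≤ ℓ ^ (A + K₀ + r + 3) := pow_le_pow_right₀ hℓ1 (by omega)
          _ ≤ Real.log (2 * (x : ℝ)) ^ (A + K₀ + r + 3) := by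
              push_cast at hl2
              exact pow_le_pow_left₀ hℓ0.le hl2 _
      calc (q : ℝ) * (((2 * x : ℕ) : ℝ) / Real.log ((2 * x : ℕ) : ℝ) ^ (A + K₀ + r + 3))
          ≤ q * (2 * x / ℓ ^ (K₀ + r + 3)) := mul_le_mul_of_nonneg_left h1 hq0
        _ = (2 * q) * (x / ℓ ^ (K₀ + r + 3)) := by ring
        _ ≤ ℓ * (x / ℓ ^ (K₀ + r + 3)) := mul_le_mul_of_nonneg_right (by linarith) (by positivity)
        _ = x / ℓ ^ (K₀ + r + 2) := by
            rw [show K₀ + r + 3 = (K₀ + r + 2) + 1 by ring, pow_succ ℓ (K₀ + r + 2)]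
            field_simp
    have hmain : 2 * (x / ℓ ^ (K₀ + r + 1)) ≤ (G.card : ℝ) * (1 / (2 * ℓ)) ^ r := by
      calc 2 * (x / ℓ ^ (K₀ + r + 1)) ≤ (x : ℝ) / 8 / ℓ ^ K₀ * (1 / (2 * ℓ)) ^ r := by
            have h1 : (x : ℝ) / 8 / ℓ ^ K₀ * (1 / (2 * ℓ)) ^ r = x / (8 * 2 ^ r * ℓ ^ (K₀ + r)) := by
              rw [one_div, inv_pow, mul_pow, pow_add, div_div, ← div_eq_mul_inv, div_div]
              congr 1
              ring
            rw [h1, ← mul_div_assoc, div_le_div_iff₀ (by positivity) (by positivity), pow_succ]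
            calc 2 * (x : ℝ) * (8 * 2 ^ r * ℓ ^ (K₀ + r)) = (16 * 2 ^ r) * (x * ℓ ^ (K₀ + r)) := by ring
              _ ≤ ℓ * (x * ℓ ^ (K₀ + r)) := mul_le_mul_of_nonneg_right hℓ16 (by positivity)
              _ = x * (ℓ ^ (K₀ + r) * ℓ) := by ring
        _ ≤ _ := mul_le_mul_of_nonneg_right hGc' (by positivity)
    have hcmp : (x : ℝ) / ℓ ^ (K₀ + r + 2) ≤ x / ℓ ^ (K₀ + r + 1) := by
      apply div_le_div_of_nonneg_left hx0.le (by positivity)
      exact pow_le_pow_right₀ hℓ1 (by omega)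
    linarith

end Pool.Agent.Lib.MHB
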