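import Pool.Agent.Lib.MHB.Count
import Pool.Agent.Lib.MHB.Few
import Pool.Agent.Lib.MHB.Transfer

/-!
# Bounded gaps between primes inside almost every prime tuple

A box is a product of intervals `(u j, u j + H j]` contained in `[0, x]^r`, with `H j ≥ x^(1/6 + ε)`. In all parts `h`
runs over all elements of a box with the exception of a proportion of at most `1 / (log x)^A`.

1. (Maynard-Tao along the primes of almost every tuple.) If `0, h_1, …, h_r` have no congruence obstruction, then
   there are at least `x / (log x)^K` primes `p ≤ x` such that `p + h_1, …, p + h_r` are all prime and `(p, p + C]`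
   contains at least `m` primes; `C` and `K` depend on `m` and `r` only.
2. For EVERY set `L` of `k` integers in `[0, x]`, `k = k (m, r)`: if `L + {0, h_1, …, h_r}` has no congruence
   obstruction, then there are at least `x / (log x)^K` integers `n ≤ x` such that for some `l ∈ L` the integers
   `n + l, n + l + h_1, …, n + l + h_r` are all prime and `n + l'` is prime for at least `m` larger `l' ∈ L`.
3. For EVERY set `L` of `k` integers in `[0, x]`: if `L ∪ {h_1, …, h_r}` has no congruence obstruction, then there are
   at least `x / (log x)^K` integers `n ≤ x` such that `n + h_1, …, n + h_r` are all prime and `n + l` is prime for at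
   least `m` of the `l ∈ L`.
-/

set_option autoImplicit false

open Finset Filter

namespace Pool.Agent.Lib.MHB

open Pool.Agent.HLB Pool.Agent.HLT Pool.Agent.HLU

/-- No prime is covered by the residue classes of the elements of `S`. -/
def Admissible (S : Finset ℕ) : Prop := ∀ p : ℕ, p.Prime → (S.image (fun a : ℕ => (a : ZMod p))).card < p

lemma prod_G0 {r : ℕ} (f : Fin r → ℕ) : (∏ j, G0 (f j)) = if ∀ j, (f j).Prime then 1 else 0 := by
  unfold G0
  by_cases h : ∀ j, (f j).Prime
  · rw [if_pos h]
    exact Finset.prod_eq_one fun j _ => if_pos (h j)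
  · rw [if_neg h]
    push Not at h
    obtain ⟨j, hj⟩ := h
    exact Finset.prod_eq_zero (Finset.mem_univ j) (if_neg hj)

/-- The least prime index. -/
def First {q : ℕ} (f : Fin q → ℕ) (m n : ℕ) (i : Fin q) : Prop :=
  (n + f i).Prime ∧ (∀ i' < i, ¬ (n + f i').Prime) ∧ m + 1 ≤ (univ.filter (fun i' : Fin q => (n + f i').Prime)).card

lemma First.unique {q : ℕ} {f : Fin q → ℕ} {m n : ℕ} {i i' : Fin q} (h : First f m n i) (h' : First f m n i') :
    i = i' := by
  rcases lt_trichotomy i i' with hlt | heq | hgt
  · exact absurd h.1 (h'.2.1 i hlt)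
  · exact heq
  · exact absurd h'.1 (h.2.1 i' hgt)

lemma exists_first {q : ℕ} (f : Fin q → ℕ) (m n : ℕ)
    (h : m + 1 ≤ (univ.filter (fun i' : Fin q => (n + f i').Prime)).card) : ∃ i, First f m n i := by
  have hne : (univ.filter (fun i' : Fin q => (n + f i').Prime)).Nonempty := by
    rw [← Finset.card_pos]
    omega
  refine ⟨(univ.filter (fun i' : Fin q => (n + f i').Prime)).min' hne, ?_, fun i' hi' hp => ?_, h⟩
  · exact (Finset.mem_filter.1 (Finset.min'_mem _ hne)).2
  · have h1 := Finset.min'_le (univ.filter (fun i' : Fin q => (n + f i').Prime)) i'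
      (Finset.mem_filter.2 ⟨Finset.mem_univ _, hp⟩)
    exact absurd h1 (not_le.2 hi')

/-- The larger primes. -/
lemma First.larger {L : Finset ℕ} {q : ℕ} (hL : L.card = q) {m n : ℕ} {i : Fin q}
    (h : First (fun i => L.orderEmbOfFin hL i) m n i) :
    m ≤ (L.filter (fun l' => L.orderEmbOfFin hL i < l' ∧ (n + l').Prime)).card := by
  classical
  have h1 : univ.filter (fun i' : Fin q => (n + L.orderEmbOfFin hL i').Prime) ⊆
      insert i (univ.filter (fun i' : Fin q => i < i' ∧ (n + L.orderEmbOfFin hL i').Prime)) := by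
    intro i' hi'
    have hp := (Finset.mem_filter.1 hi').2
    rw [Finset.mem_insert]
    rcases lt_trichotomy i' i with hlt | heq | hgt
    · exact absurd hp (h.2.1 i' hlt)
    · exact Or.inl heq
    · exact Or.inr (Finset.mem_filter.2 ⟨Finset.mem_univ _, hgt, hp⟩)
  have h2 := (Finset.card_le_card h1).trans (Finset.card_insert_le _ _)
  have h3 : m + 1 ≤ (univ.filter (fun i' : Fin q => (n + L.orderEmbOfFin hL i').Prime)).card := h.2.2
  have h4 : (univ.filter (fun i' : Fin q => i < i' ∧ (n + L.orderEmbOfFin hL i').Prime)).card ≤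
      (L.filter (fun l' => L.orderEmbOfFin hL i < l' ∧ (n + l').Prime)).card := by
    refine Finset.card_le_card_of_injOn (fun i' => L.orderEmbOfFin hL i') (fun i' hi' => ?_) ?_
    · have h5 := (Finset.mem_filter.1 (Finset.mem_coe.1 hi')).2
      refine Finset.mem_coe.2 (Finset.mem_filter.2 ⟨Finset.orderEmbOfFin_mem L hL i', ?_, h5.2⟩)
      exact (L.orderEmbOfFin hL).strictMono h5.1
    · intro a _ b _ hab
      exact (L.orderEmbOfFin hL).injective hab
  omega

/-- The set of shifts of part 2. -/
def sums {r : ℕ} (L : Finset ℕ) (h : Fin r → ℕ) : Finset ℕ :=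
  L ∪ (L ×ˢ (univ : Finset (Fin r))).image (fun s => s.1 + h s.2)

theorem gen (m r : ℕ) : ∃ k K : ℕ, ∀ (A : ℕ) (ε : ℝ), 0 < ε → ∃ x₀ : ℕ, ∀ x : ℕ, x₀ ≤ x →
    ∀ L : Finset ℕ, L.card = k → (∀ l ∈ L, l ≤ x) → ∀ u H : Fin r → ℕ,
    (∀ j, (x : ℝ) ^ (1 / 6 + ε) ≤ H j ∧ u j + H j ≤ x) →
    ∃ E ⊆ box u H, (E.card : ℝ) ≤ (box u H).card / Real.log x ^ A ∧ ∀ h ∈ box u H, h ∉ E →
      Admissible (sums L h) →
      (x : ℝ) / Real.log x ^ K ≤ (((Icc 1 (2 * (x / 4))).filter (fun n => ∃ l ∈ L, (n + l).Prime ∧
        (∀ j, (n + l + h j).Prime) ∧ m ≤ (L.filter (fun l' => l < l' ∧ (n + l').Prime)).card)).card : ℝ) := by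
  classical
  obtain ⟨q, K₀, δ, -, hq1, hδ, N₀, hcount⟩ := count_gen (m + 1) r 0
  refine ⟨q, K₀ + r + 2, fun A ε hε => ?_⟩
  have hev := (transfer r q K₀ (A + 1) δ ε hδ hε).and ((few_bad r q (A + 1) ε hε).and
    ((tendsto_log.eventually (eventually_ge_atTop 2)).and (eventually_ge_atTop (4 * N₀ + 8))))
  obtain ⟨x₀, hx₀⟩ := eventually_atTop.1 hev
  refine ⟨x₀, fun x hx L hL hLx u H hH => ?_⟩
  obtain ⟨htr, hfew, hlog, hx4⟩ := hx₀ x hx
  set f : Fin q → ℕ := fun i => L.orderEmbOfFin hL i with hf
  have hfmem : ∀ i, f i ∈ L := fun i => Finset.orderEmbOfFin_mem L hL i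
  have hfinj : Function.Injective f := (L.orderEmbOfFin hL).injective
  obtain ⟨E1, hE1, hE1c, hE1s⟩ := htr f (fun i => hLx _ (hfmem i)) u H hH
    (fun i n => if First f m n i then 1 else 0) (fun i n => by
      split_ifs <;> norm_num)
  obtain ⟨E2, hE2, hE2c, hE2s⟩ := hfew u H hH f
  have hl0 : 0 < Real.log x := by linarith
  refine ⟨E1 ∪ E2, Finset.union_subset hE1 hE2, ?_, fun h hh hE hadm => ?_⟩
  · have h1 : ((E1 ∪ E2).card : ℝ) ≤ E1.card + E2.card := by exact_mod_cast Finset.card_union_le _ _
    refine h1.trans ((add_le_add hE1c hE2c).trans ?_)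
    rw [← two_mul, pow_succ]
    calc 2 * (((box u H).card : ℝ) / (Real.log x ^ A * Real.log x))
        ≤ Real.log x * (((box u H).card : ℝ) / (Real.log x ^ A * Real.log x)) :=
          mul_le_mul_of_nonneg_right hlog (by positivity)
      _ = _ := by field_simp
  · rw [Finset.mem_union, not_or] at hE
    have hcoin := hE2s h hh hE.2
    -- the further shifts
    set b : Fin (q * r) → ℕ := fun e => h (finProdFinEquiv.symm e).2 + f (finProdFinEquiv.symm e).1 with hb
    have hbij : ∀ (i : Fin q) (j : Fin r), b (finProdFinEquiv (i, j)) = h j + f i := by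
      intro i j
      rw [hb]
      simp only [Equiv.symm_apply_apply]
    have hhx : ∀ j, h j ≤ x := by
      intro j
      have h1 := hh
      unfold box at h1
      rw [Fintype.mem_piFinset] at h1
      have h2 := Finset.mem_Ioc.1 (h1 j)
      have h3 := (hH j).2
      omega
    have hfx : ∀ i, f i ≤ x := fun i => hLx _ (hfmem i)
    have hx8 : x ≤ 8 * (x / 4) := by omega
    have happle : ∀ i, Fin.append f b i ≤ 20 * (x / 4) := by
      intro i
      refine Fin.addCases (fun i => ?_) (fun e => ?_) i
      · rw [Fin.append_left]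
        have := hfx i
        omega
      · rw [Fin.append_right, hb]
        have h1 := hfx (finProdFinEquiv.symm e).1
        have h2 := hhx (finProdFinEquiv.symm e).2
        simp only
        omega
    have happinj : Function.Injective (Fin.append f b) := by
      intro i
      refine Fin.addCases (fun i => ?_) (fun e => ?_) i
      · intro i'
        refine Fin.addCases (fun i' => ?_) (fun e' => ?_) i'
        · intro h1
          rw [Fin.append_left, Fin.append_left] at h1
          rw [hfinj h1]
        · intro h1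
          rw [Fin.append_left, Fin.append_right, hb] at h1
          exfalso
          refine hcoin (((finProdFinEquiv.symm e').2, none), (some (finProdFinEquiv.symm e').1, some i)) ⟨?_, ?_⟩
          · exact fun hc => Option.some_ne_none _ hc.symm
          · simp only [val, Option.elim_some, Option.elim_none]
            simp only at h1
            omega
      · intro i'
        refine Fin.addCases (fun i' => ?_) (fun e' => ?_) i'
        · intro h1
          rw [Fin.append_left, Fin.append_right, hb] at h1
          exfalso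
          refine hcoin (((finProdFinEquiv.symm e).2, none), (some (finProdFinEquiv.symm e).1, some i')) ⟨?_, ?_⟩
          · exact fun hc => Option.some_ne_none _ hc.symm
          · simp only [val, Option.elim_some, Option.elim_none]
            simp only at h1
            omega
        · intro h1
          rw [Fin.append_right, Fin.append_right, hb] at h1
          simp only at h1
          by_cases hj : (finProdFinEquiv.symm e').2 = (finProdFinEquiv.symm e).2
          · have h2 : (finProdFinEquiv.symm e).1 = (finProdFinEquiv.symm e').1 := by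
              apply hfinj
              rw [hj] at h1
              omega
            have h3 : finProdFinEquiv.symm e = finProdFinEquiv.symm e' := Prod.ext h2 hj.symm
            rw [finProdFinEquiv.symm.injective h3]
          · exfalso
            refine hcoin (((finProdFinEquiv.symm e).2, some (finProdFinEquiv.symm e').2),
              (some (finProdFinEquiv.symm e).1, some (finProdFinEquiv.symm e').1)) ⟨?_, ?_⟩
            · exact fun hc => hj (Option.some_injective _ hc)
            · simp only [val, Option.elim_some]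
              omega
    have happadm : ∀ p : ℕ, p.Prime → (univ.image (fun i => ((Fin.append f b i : ℕ) : ZMod p))).card < p := by
      intro p hp
      refine lt_of_le_of_lt (Finset.card_le_card ?_) (hadm p hp)
      intro z hz
      rw [Finset.mem_image] at hz ⊢
      obtain ⟨i, _, rfl⟩ := hz
      refine ⟨Fin.append f b i, ?_, rfl⟩
      unfold sums
      rw [Finset.mem_union]
      refine Fin.addCases (fun i => ?_) (fun e => ?_) i
      · left
        rw [Fin.append_left]
        exact hfmem i
      · right
        rw [Fin.append_right, Finset.mem_image]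
        exact ⟨(f (finProdFinEquiv.symm e).1, (finProdFinEquiv.symm e).2),
          Finset.mem_product.2 ⟨hfmem _, Finset.mem_univ _⟩, by rw [hb]; simp only; omega⟩
    have ht : q * r ≤ (2 ^ r - 1) * q := by
      rw [mul_comm]
      apply Nat.mul_le_mul_right
      have := Nat.lt_two_pow_self (n := r)
      omega
    have hc := hcount (x / 4) (by omega) (q * r) ht f b happle happinj happadm
    -- the transfer
    have hfin := hE1s h hh hE.1 _ (Finset.filter_subset _ _) (fun n hn => ?_) hc
    swap
    · obtain ⟨-, hn1, hn2⟩ := Finset.mem_filter.1 hn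
      obtain ⟨i, hi⟩ := exists_first f m n hn2
      refine ⟨i, if_pos hi, fun j p hp hd => ?_⟩
      refine hn1 (Fin.natAdd q (finProdFinEquiv (i, j))) p hp ?_
      rw [Fin.append_right, hbij]
      exact hd
    refine hfin.trans ?_
    rw [Finset.sum_comm]
    rw [Finset.card_filter]
    push_cast
    refine Finset.sum_le_sum fun n _ => ?_
    by_cases hex : ∃ i, First f m n i ∧ ∀ j, (n + (h j + f i)).Prime
    · obtain ⟨i, hi, hij⟩ := hex
      have h1 : ∑ i', (if First f m n i' then (1 : ℝ) else 0) * ∏ j, G0 (n + (h j + f i')) = 1 := by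
        rw [Finset.sum_eq_single i]
        · rw [if_pos hi, one_mul, prod_G0, if_pos hij]
        · intro i' _ hne
          rw [if_neg (fun hi' => hne (hi'.unique hi)), zero_mul]
        · intro h2
          exact absurd (Finset.mem_univ _) h2
      rw [h1, if_pos]
      refine ⟨f i, hfmem i, hi.1, fun j => ?_, hi.larger hL⟩
      have := hij j
      rwa [show n + f i + h j = n + (h j + f i) by ring]
    · have h1 : ∑ i', (if First f m n i' then (1 : ℝ) else 0) * ∏ j, G0 (n + (h j + f i')) = 0 := by
        refine Finset.sum_eq_zero fun i' _ => ?_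
        by_cases hi : First f m n i'
        · rw [prod_G0, if_neg (fun hj => hex ⟨i', hi, hj⟩), mul_zero]
        · rw [if_neg hi, zero_mul]
      rw [h1]
      split_ifs <;> norm_num

theorem off (m r : ℕ) : ∃ k K : ℕ, ∀ (A : ℕ) (ε : ℝ), 0 < ε → ∃ x₀ : ℕ, ∀ x : ℕ, x₀ ≤ x →
    ∀ L : Finset ℕ, L.card = k → (∀ l ∈ L, l ≤ x) → ∀ u H : Fin r → ℕ,
    (∀ j, (x : ℝ) ^ (1 / 6 + ε) ≤ H j ∧ u j + H j ≤ x) →
    ∃ E ⊆ box u H, (E.card : ℝ) ≤ (box u H).card / Real.log x ^ A ∧ ∀ h ∈ box u H, h ∉ E →
      Admissible (L ∪ univ.image h) →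
      (x : ℝ) / Real.log x ^ K ≤ (((Icc 1 (2 * (x / 4))).filter (fun n => (∀ j, (n + h j).Prime) ∧
        m ≤ (L.filter (fun l => (n + l).Prime)).card)).card : ℝ) := by
  classical
  obtain ⟨q, K₀, δ, hrq, hq1, hδ, N₀, hcount⟩ := count_gen m 1 r
  refine ⟨q, K₀ + r + 2, fun A ε hε => ?_⟩
  have hev := (transfer r 1 K₀ (A + 1) δ ε hδ hε).and ((few_bad r q (A + 1) ε hε).and
    ((tendsto_log.eventually (eventually_ge_atTop 2)).and (eventually_ge_atTop (4 * N₀ + 8))))
  obtain ⟨x₀, hx₀⟩ := eventually_atTop.1 hev
  refine ⟨x₀, fun x hx L hL hLx u H hH => ?_⟩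
  obtain ⟨htr, hfew, hlog, hx4⟩ := hx₀ x hx
  set f : Fin q → ℕ := fun i => L.orderEmbOfFin hL i with hf
  have hfmem : ∀ i, f i ∈ L := fun i => Finset.orderEmbOfFin_mem L hL i
  have hfinj : Function.Injective f := (L.orderEmbOfFin hL).injective
  obtain ⟨E1, hE1, hE1c, hE1s⟩ := htr (fun _ => 0) (fun i => Nat.zero_le _) u H hH
    (fun _ n => if m ≤ (univ.filter (fun i' : Fin q => (n + f i').Prime)).card then 1 else 0) (fun i n => by
      split_ifs <;> norm_num)
  obtain ⟨E2, hE2, hE2c, hE2s⟩ := hfew u H hH f
  have hl0 : 0 < Real.log x := by linarith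
  refine ⟨E1 ∪ E2, Finset.union_subset hE1 hE2, ?_, fun h hh hE hadm => ?_⟩
  · have h1 : ((E1 ∪ E2).card : ℝ) ≤ E1.card + E2.card := by exact_mod_cast Finset.card_union_le _ _
    refine h1.trans ((add_le_add hE1c hE2c).trans ?_)
    rw [← two_mul, pow_succ]
    calc 2 * (((box u H).card : ℝ) / (Real.log x ^ A * Real.log x))
        ≤ Real.log x * (((box u H).card : ℝ) / (Real.log x ^ A * Real.log x)) :=
          mul_le_mul_of_nonneg_right hlog (by positivity)
      _ = _ := by field_simp
  · rw [Finset.mem_union, not_or] at hE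
    have hcoin := hE2s h hh hE.2
    have hhx : ∀ j, h j ≤ x := by
      intro j
      have h1 := hh
      unfold box at h1
      rw [Fintype.mem_piFinset] at h1
      have h2 := Finset.mem_Ioc.1 (h1 j)
      have h3 := (hH j).2
      omega
    have hfx : ∀ i, f i ≤ x := fun i => hLx _ (hfmem i)
    have happle : ∀ i, Fin.append f h i ≤ 20 * (x / 4) := by
      intro i
      refine Fin.addCases (fun i => ?_) (fun e => ?_) i
      · rw [Fin.append_left]
        have := hfx i
        omega
      · rw [Fin.append_right]
        have h2 := hhx e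
        omega
    have happinj : Function.Injective (Fin.append f h) := by
      intro i
      refine Fin.addCases (fun i => ?_) (fun e => ?_) i
      · intro i'
        refine Fin.addCases (fun i' => ?_) (fun e' => ?_) i'
        · intro h1
          rw [Fin.append_left, Fin.append_left] at h1
          rw [hfinj h1]
        · intro h1
          rw [Fin.append_left, Fin.append_right] at h1
          exfalso
          refine hcoin ((e', none), (none, some i)) ⟨?_, ?_⟩
          · exact fun hc => Option.some_ne_none _ hc.symm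
          · simp only [val, Option.elim_some, Option.elim_none]
            omega
      · intro i'
        refine Fin.addCases (fun i' => ?_) (fun e' => ?_) i'
        · intro h1
          rw [Fin.append_left, Fin.append_right] at h1
          exfalso
          refine hcoin ((e, none), (none, some i')) ⟨?_, ?_⟩
          · exact fun hc => Option.some_ne_none _ hc.symm
          · simp only [val, Option.elim_some, Option.elim_none]
            omega
        · intro h1
          rw [Fin.append_right, Fin.append_right] at h1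
          by_cases hj : e' = e
          · rw [hj]
          · exfalso
            refine hcoin ((e, some e'), (none, none)) ⟨?_, ?_⟩
            · exact fun hc => hj (Option.some_injective _ hc)
            · simp only [val, Option.elim_some, Option.elim_none]
              omega
    have happadm : ∀ p : ℕ, p.Prime → (univ.image (fun i => ((Fin.append f h i : ℕ) : ZMod p))).card < p := by
      intro p hp
      refine lt_of_le_of_lt (Finset.card_le_card ?_) (hadm p hp)
      intro z hz
      rw [Finset.mem_image] at hz ⊢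
      obtain ⟨i, _, rfl⟩ := hz
      refine ⟨Fin.append f h i, ?_, rfl⟩
      rw [Finset.mem_union]
      refine Fin.addCases (fun i => ?_) (fun e => ?_) i
      · left
        rw [Fin.append_left]
        exact hfmem i
      · right
        rw [Fin.append_right]
        exact Finset.mem_image_of_mem _ (Finset.mem_univ _)
    have hc := hcount (x / 4) (by omega) r (by rw [pow_one]; omega) f h happle happinj happadm
    have hfin := hE1s h hh hE.1 _ (Finset.filter_subset _ _) (fun n hn => ?_) hc
    swap
    · obtain ⟨-, hn1, hn2⟩ := Finset.mem_filter.1 hn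
      refine ⟨0, if_pos hn2, fun j p hp hd => ?_⟩
      refine hn1 (Fin.natAdd q j) p hp ?_
      rw [Fin.append_right]
      exact hd
    refine hfin.trans ?_
    rw [Fin.sum_univ_one, Finset.card_filter]
    push_cast
    refine Finset.sum_le_sum fun n _ => ?_
    rw [prod_G0]
    by_cases h1 : m ≤ (univ.filter (fun i' : Fin q => (n + f i').Prime)).card
    · by_cases h2 : ∀ j, (n + (h j + 0)).Prime
      · rw [if_pos h1, if_pos h2, if_pos, one_mul]
        refine ⟨h2, h1.trans ?_⟩
        refine Finset.card_le_card_of_injOn f (fun i' hi' => ?_) ?_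
        · have h5 := (Finset.mem_filter.1 (Finset.mem_coe.1 hi')).2
          exact Finset.mem_coe.2 (Finset.mem_filter.2 ⟨hfmem i', h5⟩)
        · intro a _ b _ hab
          exact hfinj hab
      · rw [if_neg h2, mul_zero]
        split_ifs <;> norm_num
    · rw [if_neg h1, zero_mul]
      split_ifs <;> norm_num

/-- Shifts which are multiples of a primorial. -/
lemma adm_sums {k r : ℕ} (h : Fin r → ℕ) (hadm : Admissible (insert 0 (univ.image h))) :
    Admissible (sums ((range k).image (fun i => primorial (k * (r + 1)) * i)) h) := by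
  classical
  intro p hp
  have : Fact p.Prime := ⟨hp⟩
  by_cases hpk : p ≤ k * (r + 1)
  · refine lt_of_le_of_lt (Finset.card_le_card ?_) (hadm p hp)
    intro z hz
    rw [Finset.mem_image] at hz ⊢
    obtain ⟨a, ha, rfl⟩ := hz
    have h0 : ∀ i : ℕ, ((primorial (k * (r + 1)) * i : ℕ) : ZMod p) = 0 := by
      intro i
      rw [ZMod.natCast_eq_zero_iff]
      exact Dvd.dvd.mul_right (hp.dvd_primorial_iff.2 hpk) _
    unfold sums at ha
    rw [Finset.mem_union] at ha
    rcases ha with ha | ha
    · obtain ⟨i, _, rfl⟩ := Finset.mem_image.1 ha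
      refine ⟨0, Finset.mem_insert_self _ _, ?_⟩
      rw [h0, Nat.cast_zero]
    · obtain ⟨⟨l, j⟩, hlj, rfl⟩ := Finset.mem_image.1 ha
      obtain ⟨i, _, hi⟩ := Finset.mem_image.1 (Finset.mem_product.1 hlj).1
      refine ⟨h j, Finset.mem_insert_of_mem (Finset.mem_image_of_mem _ (Finset.mem_univ _)), ?_⟩
      simp only at hi ⊢
      rw [← hi, Nat.cast_add, h0, zero_add]
  · refine lt_of_le_of_lt Finset.card_image_le (lt_of_le_of_lt (Finset.card_union_le _ _) ?_)
    have h1 : ((range k).image (fun i => primorial (k * (r + 1)) * i)).card ≤ k := by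
      refine Finset.card_image_le.trans ?_
      rw [Finset.card_range]
    have h2 : ((((range k).image (fun i => primorial (k * (r + 1)) * i)) ×ˢ (univ : Finset (Fin r))).image
        (fun s => s.1 + h s.2)).card ≤ k * r := by
      refine Finset.card_image_le.trans ?_
      rw [Finset.card_product, Finset.card_univ, Fintype.card_fin]
      exact Nat.mul_le_mul_right _ h1
    have h3 : k * (r + 1) = k + k * r := by ring
    omega

theorem headline (m r : ℕ) : ∃ C K : ℕ, ∀ (A : ℕ) (ε : ℝ), 0 < ε → ∃ x₀ : ℕ, ∀ x : ℕ, x₀ ≤ x →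
    ∀ u H : Fin r → ℕ, (∀ j, (x : ℝ) ^ (1 / 6 + ε) ≤ H j ∧ u j + H j ≤ x) →
    ∃ E ⊆ box u H, (E.card : ℝ) ≤ (box u H).card / Real.log x ^ A ∧ ∀ h ∈ box u H, h ∉ E →
      Admissible (insert 0 (univ.image h)) →
      (x : ℝ) / Real.log x ^ K ≤ (((Icc 1 x).filter (fun p => p.Prime ∧ (∀ j, (p + h j).Prime) ∧
        m ≤ ((Ioc p (p + C)).filter (fun p' => p'.Prime)).card)).card : ℝ) := by
  classical
  obtain ⟨k, K, hgen⟩ := gen m r
  obtain ⟨M, hM⟩ : ∃ M : ℕ, M = primorial (k * (r + 1)) := ⟨_, rfl⟩
  have hMpos : 0 < M := by rw [hM]; exact primorial_pos _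
  refine ⟨M * k, K + 1, fun A ε hε => ?_⟩
  obtain ⟨x₁, hx₁⟩ := hgen A ε hε
  obtain ⟨x₂, hx₂⟩ := eventually_atTop.1 (tendsto_log.eventually (eventually_ge_atTop ((k : ℝ) + 1)))
  refine ⟨max (max x₁ x₂) (2 * (M * k) + 8), fun x hx u H hH => ?_⟩
  have hxx1 : x₁ ≤ x := le_trans (le_trans (le_max_left _ _) (le_max_left _ _)) hx
  have hxx2 : x₂ ≤ x := le_trans (le_trans (le_max_right _ _) (le_max_left _ _)) hx
  have hxM : 2 * (M * k) + 8 ≤ x := le_trans (le_max_right _ _) hx
  have hlog := hx₂ x hxx2
  have hk0 : (0 : ℝ) ≤ k := Nat.cast_nonneg k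
  have hl0 : 0 < Real.log x := by linarith
  set L : Finset ℕ := (range k).image (fun i => M * i) with hL
  have hLc : L.card = k := by
    rw [hL, Finset.card_image_of_injective _ (fun a b hab => Nat.eq_of_mul_eq_mul_left hMpos hab),
      Finset.card_range]
  have hLle : ∀ l ∈ L, l ≤ M * k := by
    intro l hl
    obtain ⟨i, hi, rfl⟩ := Finset.mem_image.1 hl
    exact Nat.mul_le_mul_left _ (Finset.mem_range.1 hi).le
  obtain ⟨E, hE1, hE2, hE3⟩ := hx₁ x hxx1 L hLc (fun l hl => by have := hLle l hl; omega) u H hH
  refine ⟨E, hE1, hE2, fun h hh hE hadm => ?_⟩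
  have hadm' : Admissible (sums L h) := by
    rw [hL, hM]
    exact adm_sums h hadm
  have key := hE3 h hh hE hadm'
  set S := (Icc 1 (2 * (x / 4))).filter (fun n => ∃ l ∈ L, (n + l).Prime ∧
        (∀ j, (n + l + h j).Prime) ∧ m ≤ (L.filter (fun l' => l < l' ∧ (n + l').Prime)).card) with hS
  set T := (Icc 1 x).filter (fun p => p.Prime ∧ (∀ j, (p + h j).Prime) ∧
        m ≤ ((Ioc p (p + M * k)).filter (fun p' => p'.Prime)).card) with hT
  have hST : S.card ≤ k * T.card := by
    have h1 : ∀ n ∈ S, ∃ l ∈ L, n + l ∈ T := by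
      intro n hn
      obtain ⟨hn1, l, hl, hp, hpj, hm⟩ := Finset.mem_filter.1 hn
      rw [Finset.mem_Icc] at hn1
      refine ⟨l, hl, Finset.mem_filter.2 ⟨?_, hp, hpj, hm.trans ?_⟩⟩
      · have := hLle l hl
        rw [Finset.mem_Icc]
        omega
      · refine Finset.card_le_card_of_injOn (fun l' => n + l') (fun l' hl' => ?_) ?_
        · obtain ⟨h2, h3, h4⟩ := Finset.mem_filter.1 (Finset.mem_coe.1 hl')
          have h5 := hLle l' h2
          refine Finset.mem_coe.2 (Finset.mem_filter.2 ⟨?_, h4⟩)
          show n + l' ∈ Ioc (n + l) (n + l + M * k)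
          rw [Finset.mem_Ioc]
          omega
        · intro a _ b _ hab
          simp only at hab
          omega
    choose! φ hφ1 hφ2 using h1
    have h2 : S.card ≤ (L ×ˢ T).card := by
      refine Finset.card_le_card_of_injOn (fun n => (φ n, n + φ n)) (fun n hn => ?_) ?_
      · exact Finset.mem_coe.2 (Finset.mem_product.2 ⟨hφ1 n (Finset.mem_coe.1 hn), hφ2 n (Finset.mem_coe.1 hn)⟩)
      · intro a _ b _ hab
        have e1 := congrArg Prod.fst hab
        have e2 := congrArg Prod.snd hab
        simp only at e1 e2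
        omega
    rwa [Finset.card_product, hLc] at h2
  have hST' : (S.card : ℝ) ≤ k * T.card := by exact_mod_cast hST
  have h3 : (x : ℝ) / Real.log x ^ K ≤ Real.log x * T.card := by
    refine key.trans (hST'.trans ?_)
    exact mul_le_mul_of_nonneg_right (by linarith) (Nat.cast_nonneg _)
  rw [pow_succ, ← div_div, div_le_iff₀ hl0]
  calc (x : ℝ) / Real.log x ^ K ≤ Real.log x * T.card := h3
    _ = T.card * Real.log x := mul_comm _ _

end Pool.Agent.Lib.MHB
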